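import Mathlib
import Pool.Agent.Helper2.SV.Defs
import Pool.Agent.Helper2.SV.GoalsP

/-!
# Project SV, packet CJ: the co-1-join of perfect sets is perfect
-/

set_option autoImplicit false

namespace Pool.Agent.Helper46.SV

open Pool.Agent.Helper2.SV

variable {V : Type}

/-- A clique of maximal size. -/
lemma exists_maxClq [Finite V] (G : SimpleGraph V) (X : Set V) :
    ∃ K : Finset V, (↑K : Set V) ⊆ X ∧ Clq G ↑K ∧ OmLe G X K.card := by
  classical
  haveI := Fintype.ofFinite V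
  obtain ⟨K, hK, hmax⟩ := Set.exists_max_image
    {K : Finset V | (↑K : Set V) ⊆ X ∧ Clq G ↑K} Finset.card (Set.toFinite _)
    ⟨∅, by simp, by simpa using clq_empty G⟩
  exact ⟨K, hK.1, hK.2, fun L hL hL' => hmax L ⟨hL, hL'⟩⟩

/-- One side: the colouring given by the replication lemma. -/
lemma side (hREP : G_REP) [Finite V] (G : SimpleGraph V) (A F X : Set V) (t : V) (o a : ℕ)
    (ht : t ∉ A) (hadj : ∀ b ∈ A, (G.Adj t b ↔ b ∉ F)) (hP : Perf G (insert t A))
    (hX : X ⊆ A) (ho : OmLe G X o) (ha : OmLe G (X \ F) a) (hao : a ≤ o) :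
    ∃ f : V → ℕ, (∀ x ∈ X, f x < o) ∧ (∀ x ∈ X, ∀ z ∈ X, G.Adj x z → f x ≠ f z) ∧
      ∀ x ∈ X, x ∉ F → f x < a := by
  obtain ⟨f, h1, h2, h3⟩ := hREP V G (insert t A) hP (o - a) o (insert t X) t
    (Set.insert_subset_insert hX) (Set.mem_insert _ _)
    (ho.mono (by
      rintro x ⟨hx, hx'⟩
      rcases hx with rfl | hx
      · exact absurd rfl hx'
      · exact hx))
    (by
      intro K hK hc
      have : K.card ≤ a := by
        refine ha K ?_ hc
        intro x hx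
        obtain ⟨hx1, hx2⟩ := hK hx
        rcases hx1 with rfl | hx1
        · exact absurd hx2 (G.irrefl)
        · exact ⟨hx1, (hadj x (hX hx1)).1 hx2⟩
      omega)
  refine ⟨f, ?_, ?_, ?_⟩
  · intro x hx
    exact h1 x (Set.mem_insert_of_mem _ hx) (fun h => ht (h ▸ hX hx))
  · intro x hx z hz hxz
    exact h2 x (Set.mem_insert_of_mem _ hx) z (Set.mem_insert_of_mem _ hz)
      (fun h => ht (h ▸ hX hx)) (fun h => ht (h ▸ hX hz)) hxz
  · intro x hx hxF
    have := h3 x (Set.mem_insert_of_mem _ hx) ((hadj x (hX hx)).2 hxF)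
    omega

/-- The union of two cliques which are complete to each other. -/
lemma union_card [Finite V] (G : SimpleGraph V) (X : Set V) (n : ℕ) (hX : OmLe G X n)
    (K L : Finset V) (hK : (↑K : Set V) ⊆ X) (hL : (↑L : Set V) ⊆ X) (cK : Clq G ↑K)
    (cL : Clq G ↑L) (hd : ∀ x ∈ K, ∀ y ∈ L, x ≠ y) (hc : ∀ x ∈ K, ∀ y ∈ L, G.Adj x y) :
    K.card + L.card ≤ n := by
  classical
  have hdis : Disjoint K L := by
    rw [Finset.disjoint_left]
    intro x hx hx'
    exact hd x hx x hx' rfl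
  rw [← Finset.card_union_of_disjoint hdis]
  refine hX (K ∪ L) ?_ ?_
  · intro x hx
    rw [Finset.coe_union] at hx
    rcases hx with hx | hx
    · exact hK hx
    · exact hL hx
  · intro x hx y hy hxy
    rw [Finset.coe_union] at hx hy
    rcases hx with hx | hx <;> rcases hy with hy | hy
    · exact cK x hx y hy hxy
    · exact hc x hx y hy
    · exact (hc y hy x hx).symm
    · exact cL x hx y hy hxy

theorem goalCJ (hREP : G_REP) : G_CJ := by
  classical
  intro V _ G A1 A2 F1 F2 t y hdis ht hy hcr hadt hady hP1 hP2 X hX n hn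
  have hX1 : X ∩ A1 ⊆ A1 := Set.inter_subset_right
  have hX2 : X ∩ A2 ⊆ A2 := Set.inter_subset_right
  obtain ⟨K1, k1X, k1c, k1m⟩ := exists_maxClq G (X ∩ A1)
  obtain ⟨J1, j1X, j1c, j1m⟩ := exists_maxClq G ((X ∩ A1) \ F1)
  obtain ⟨K2, k2X, k2c, k2m⟩ := exists_maxClq G (X ∩ A2)
  obtain ⟨J2, j2X, j2c, j2m⟩ := exists_maxClq G ((X ∩ A2) \ F2)
  have h11 : J1.card ≤ K1.card := k1m J1 (j1X.trans Set.diff_subset) j1c
  have h22 : J2.card ≤ K2.card := k2m J2 (j2X.trans Set.diff_subset) j2c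
  have hne : ∀ x ∈ A1, ∀ z ∈ A2, x ≠ z := by
    rintro x hx z hz rfl
    exact (Set.disjoint_left.1 hdis) hx hz
  have e1 : J1.card + K2.card ≤ n := by
    refine union_card G X n hn J1 K2 (fun x hx => (j1X hx).1.1) (fun x hx => (k2X hx).1) j1c k2c
      (fun x hx z hz => hne x (j1X hx).1.2 z (k2X hz).2) ?_
    intro x hx z hz
    exact (hcr x (j1X hx).1.2 z (k2X hz).2).2 (fun h => (j1X hx).2 h.1)
  have e2 : K1.card + J2.card ≤ n := by
    refine union_card G X n hn K1 J2 (fun x hx => (k1X hx).1) (fun x hx => (j2X hx).1.1) k1c j2c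
      (fun x hx z hz => hne x (k1X hx).2 z (j2X hz).1.2) ?_
    intro x hx z hz
    exact (hcr x (k1X hx).2 z (j2X hz).1.2).2 (fun h => (j2X hz).2 h.2)
  obtain ⟨f1, f1a, f1b, f1c⟩ := side hREP G A1 F1 (X ∩ A1) t _ _ ht hadt hP1 hX1 k1m j1m h11
  obtain ⟨f2, f2a, f2b, f2c⟩ := side hREP G A2 F2 (X ∩ A2) y _ _ hy hady hP2 hX2 k2m j2m h22
  set o1 := K1.card
  set a1 := J1.card
  set o2 := K2.card
  set a2 := J2.card
  have cross : ∀ x ∈ X ∩ A1, ∀ z ∈ X ∩ A2, G.Adj x z →
      (if f1 x < a1 then f1 x else a2 + f1 x) ≠ a1 + f2 z := by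
    intro x hx z hz hxz
    have hnot := (hcr x hx.2 z hz.2).1 hxz
    by_cases hxF : x ∈ F1
    · have hzF : z ∉ F2 := fun h => hnot ⟨hxF, h⟩
      have := f2c z hz hzF
      split_ifs <;> omega
    · have := f1c x hx hxF
      rw [if_pos this]
      omega
  refine ⟨fun x => if x ∈ A1 then (if f1 x < a1 then f1 x else a2 + f1 x) else a1 + f2 x,
    ?_, ?_⟩
  · intro x hx
    by_cases hx1 : x ∈ A1
    · have := f1a x ⟨hx, hx1⟩
      simp only [if_pos hx1]
      split_ifs <;> omega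
    · have hx2 : x ∈ A2 := (hX hx).resolve_left hx1
      have := f2a x ⟨hx, hx2⟩
      simp only [if_neg hx1]
      omega
  · intro x hx z hz hxz
    by_cases hx1 : x ∈ A1 <;> by_cases hz1 : z ∈ A1
    · have := f1b x ⟨hx, hx1⟩ z ⟨hz, hz1⟩ hxz
      simp only [if_pos hx1, if_pos hz1]
      split_ifs <;> omega
    · have hz2 : z ∈ A2 := (hX hz).resolve_left hz1
      simp only [if_pos hx1, if_neg hz1]
      exact cross x ⟨hx, hx1⟩ z ⟨hz, hz2⟩ hxz
    · have hx2 : x ∈ A2 := (hX hx).resolve_left hx1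
      simp only [if_neg hx1, if_pos hz1]
      exact (cross z ⟨hz, hz1⟩ x ⟨hx, hx2⟩ hxz.symm).symm
    · have hx2 : x ∈ A2 := (hX hx).resolve_left hx1
      have hz2 : z ∈ A2 := (hX hz).resolve_left hz1
      have := f2b x ⟨hx, hx2⟩ z ⟨hz, hz2⟩ hxz
      simp only [if_neg hx1, if_neg hz1]
      omega

end Pool.Agent.Helper46.SV
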